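import Pool.Agent.Lib.MP_94c136_al.Main

set_option autoImplicit false

open Pool.Agent.Lib.MP_94c136_al

namespace Pool.Agent.Results.MP_94c136_al.OutNotCompact

/-- There is an oligomorphic group `G ≤ S_∞` whose outer automorphism group `Out(G)`, with the
quotient topology, is not compact (so it is not profinite). -/
theorem result : ∃ G : Subgroup SInf, IsOligomorphic G ∧ ¬ CompactSpace (Out G) :=
  main

end Pool.Agent.Results.MP_94c136_al.OutNotCompact
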